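import Pool.Agent.H98.RSA.Num2

/-!
# Random sequential adsorption with nearest-neighbour exclusion: two-sided bounds for the jamming
densities of the square lattice and of all strips
-/

set_option autoImplicit false

open Finset Filter Topology
open scoped Nat
open Pool.Agent.H98.RSA

namespace Pool.Agent.Results.MP_eaa50a_pr.ParityBrackets

/-- The jamming densities of the square lattice and of the strips of all widths exist, exact
probabilities of finite clusters whose outer boundary has one parity bound them from both sides,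
with an error which decays faster than exponentially, and numerical bounds. -/
theorem result :
    (∃ m : ℝ, Tendsto (fun n : ℕ => meanSize nb (grid n n) / (n : ℝ) ^ 2) atTop (𝓝 m) ∧
      0.35579 < m ∧ m < 0.36725 ∧
      (∀ C : Finset (ℤ × ℤ), (0, 0) ∈ C →
        (∀ x ∈ C, ∀ y ∈ nb x, y ∉ C → Even (y.1 + y.2)) → (occ nb C (0, 0) : ℝ) ≤ m) ∧
      (∀ C : Finset (ℤ × ℤ), (0, 0) ∈ C →
        (∀ x ∈ C, ∀ y ∈ nb x, y ∉ C → Odd (y.1 + y.2)) → m ≤ (occ nb C (0, 0) : ℝ)) ∧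
      ∀ (C : Finset (ℤ × ℤ)) (L : ℕ), (∀ y : ℤ × ℤ, |y.1| + |y.2| < L → y ∈ C) →
        |(occ nb C (0, 0) : ℝ) - m| ≤ Real.exp 4 * 4 ^ L / (L + 1)!) ∧
    (∃ m : ℝ, Tendsto (fun n : ℕ => meanSize nb (grid 4 n) / (4 * n : ℝ)) atTop (𝓝 m) ∧
      0.38458 < m ∧ m < 0.38686) ∧
    ∀ k : ℕ, 1 ≤ k → ∃ ρ : ℤ → ℝ,
      Tendsto (fun n : ℕ => meanSize nb (grid k n) / (k * n : ℝ)) atTop
        (𝓝 ((∑ i ∈ Finset.Icc (1 : ℤ) k, ρ i) / k)) ∧
      ∀ i ∈ Finset.Icc (1 : ℤ) k,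
        (∀ C : Finset (ℤ × ℤ), (i, 0) ∈ C → (∀ x ∈ C, 1 ≤ x.1 ∧ x.1 ≤ k) →
          (∀ x ∈ C, ∀ y ∈ nb x, 1 ≤ y.1 → y.1 ≤ k → y ∉ C → Even (y.1 + y.2 - i)) →
          (occ nb C (i, 0) : ℝ) ≤ ρ i) ∧
        (∀ C : Finset (ℤ × ℤ), (i, 0) ∈ C → (∀ x ∈ C, 1 ≤ x.1 ∧ x.1 ≤ k) →
          (∀ x ∈ C, ∀ y ∈ nb x, 1 ≤ y.1 → y.1 ≤ k → y ∉ C → Odd (y.1 + y.2 - i)) →
          ρ i ≤ (occ nb C (i, 0) : ℝ)) ∧
        ∀ (C : Finset (ℤ × ℤ)) (L : ℕ), (∀ x ∈ C, 1 ≤ x.1 ∧ x.1 ≤ k) →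
          (∀ y : ℤ × ℤ, 1 ≤ y.1 → y.1 ≤ k → |y.1 - i| + |y.2| < L → y ∈ C) →
          |(occ nb C (i, 0) : ℝ) - ρ i| ≤ Real.exp 4 * 4 ^ L / (L + 1)! := by
  refine ⟨?_, strip4, ?_⟩
  · obtain ⟨m, h1, h2, h3, h4⟩ := plane
    refine ⟨m, h1, plane_lower m h2, plane_upper m h3, ?_, ?_, ?_⟩
    · intro C hC h
      refine h2 C hC fun x hx y hy hyC => ?_
      unfold par
      simpa using h x hx y hy hyC
    · intro C hC h
      refine h3 C hC fun x hx y hy hyC hp => ?_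
      unfold par at hp
      rw [add_zero, sub_zero] at hp
      exact (Int.not_even_iff_odd.2 (h x hx y hy hyC)) hp
    · intro C L h
      refine h4 C L fun y hy => h y ?_
      unfold l1 at hy
      simpa using hy
  · intro k _
    obtain ⟨ρ, h1, h2⟩ := strips k
    refine ⟨ρ, h1, fun i hi => ?_⟩
    obtain ⟨a1, a2, a3⟩ := h2 i hi
    refine ⟨?_, ?_, ?_⟩
    · intro C hC hCH h
      refine a1 C hC hCH fun x hx y hy hyH hyC => ?_
      unfold par
      have := h x hx y hy hyH.1 hyH.2 hyC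
      rwa [add_zero]
    · intro C hC hCH h
      refine a2 C hC hCH fun x hx y hy hyH hyC hp => ?_
      unfold par at hp
      rw [add_zero] at hp
      exact (Int.not_even_iff_odd.2 (h x hx y hy hyH.1 hyH.2 hyC)) hp
    · intro C L hCH h
      refine a3 C L hCH fun y hyH hy => h y hyH.1 hyH.2 ?_
      unfold l1 at hy
      rw [abs_sub_comm, zero_sub, abs_neg] at hy
      exact hy

end Pool.Agent.Results.MP_eaa50a_pr.ParityBrackets
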